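import Mathlib
import Pool.Agent.Helper45.HR.Stmts

open Polynomial

namespace Pool.Agent.Helper86.HR

theorem exists_prim_of_root (ζ : ℂ) (H0 : ℤ[X]) (h0 : H0 ≠ 0) (hr : aeval ζ H0 = 0) :
    ∃ q : ℤ[X], ¬ IsUnit q ∧ ∀ H : ℤ[X], aeval ζ H = 0 → q ∣ H := by
  have hmap : ∀ H : ℤ[X], aeval ζ (H.map (Int.castRingHom ℚ)) = aeval ζ H := by
    intro H
    have := aeval_map_algebraMap ℚ ζ H
    simpa using this
  have halg : IsIntegral ℚ ζ := by
    rw [← isAlgebraic_iff_isIntegral]
    refine ⟨H0.map (Int.castRingHom ℚ), ?_, ?_⟩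
    · intro h
      apply h0
      exact (Polynomial.map_eq_zero_iff (Int.cast_injective (α := ℚ))).mp h
    · rw [hmap, hr]
  obtain ⟨b, hb, hb'⟩ := IsLocalization.integerNormalization_spec (nonZeroDivisors ℤ)
    (minpoly ℚ ζ)
  set q0 := IsLocalization.integerNormalization (nonZeroDivisors ℤ) (minpoly ℚ ζ) with hq0
  have hbz : (b : ℤ) ≠ 0 := nonZeroDivisors.ne_zero hb
  have hp0 : minpoly ℚ ζ ≠ 0 := minpoly.ne_zero halg
  have hq0z : q0 ≠ 0 := by
    intro h
    rw [h, Polynomial.map_zero] at hb'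
    have := (smul_eq_zero.mp hb'.symm)
    rcases this with h | h
    · exact hbz h
    · exact hp0 h
  have hcast : (algebraMap ℤ ℚ) = Int.castRingHom ℚ := rfl
  rw [hcast] at hb'
  have hfac := q0.eq_C_content_mul_primPart
  have hcont : q0.content ≠ 0 := by
    rw [Ne, content_eq_zero_iff]; exact hq0z
  -- the primitive part maps to a multiple of the minimal polynomial
  have hm : C (q0.content : ℚ) * q0.primPart.map (Int.castRingHom ℚ) = C (b : ℚ) * minpoly ℚ ζ := by
    have h1 : q0.map (Int.castRingHom ℚ) = C (q0.content : ℚ) *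
        q0.primPart.map (Int.castRingHom ℚ) := by
      conv_lhs => rw [hfac]
      simp
    rw [← h1, hb']
    rw [zsmul_eq_mul, map_intCast (C : ℚ →+* ℚ[X]) b]
  have hdeg : (q0.primPart.map (Int.castRingHom ℚ)).natDegree = (minpoly ℚ ζ).natDegree := by
    have h1 := congrArg natDegree hm
    rw [natDegree_C_mul (by exact_mod_cast hcont), natDegree_C_mul (by exact_mod_cast hbz)] at h1
    exact h1
  refine ⟨q0.primPart, ?_, ?_⟩
  · intro hu
    have h1 := natDegree_eq_zero_of_isUnit hu
    have h2 : (q0.primPart.map (Int.castRingHom ℚ)).natDegree = 0 := by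
      have := natDegree_map_le (f := Int.castRingHom ℚ) (p := q0.primPart)
      omega
    rw [hdeg] at h2
    have := minpoly.natDegree_pos halg
    omega
  · intro H hH
    rw [IsPrimitive.Int.dvd_iff_map_cast_dvd_map_cast _ _ q0.isPrimitive_primPart]
    have h1 : minpoly ℚ ζ ∣ H.map (Int.castRingHom ℚ) := by
      apply minpoly.dvd
      rw [hmap, hH]
    refine dvd_trans ?_ h1
    refine ⟨C ((q0.content : ℚ) / b), ?_⟩
    have hbq : (b : ℚ) ≠ 0 := by exact_mod_cast hbz
    have : C (b : ℚ) * minpoly ℚ ζ = C (b : ℚ) * (q0.primPart.map (Int.castRingHom ℚ) *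
        C ((q0.content : ℚ) / b)) := by
      rw [← hm, mul_left_comm, ← C_mul, mul_div_cancel₀ _ hbq, mul_comm]
    exact mul_left_cancel₀ (by rw [Ne, C_eq_zero]; exact hbq) this

theorem st_GCD : Pool.Agent.Helper45.HR.ST_GCD := by
  classical
  intro G hG
  let : NormalizedGCDMonoid ℤ[X] := Classical.choice (inferInstance)
  refine ⟨fun c => (Finset.range c).gcd G, ?_, ?_⟩
  · intro c hc
    have hne : (Finset.range c).gcd G ≠ 0 :=
      Finset.gcd_ne_zero_iff.mpr ⟨0, Finset.mem_range.mpr hc, hG⟩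
    refine ⟨hne, fun a ha => Finset.gcd_dvd (by simpa using ha), ?_⟩
    intro H hH ζ
    by_contra hcon
    push Not at hcon
    have hH0 : H 0 ≠ 0 := by
      intro h
      apply hG
      rw [hH 0 (by omega), h, mul_zero]
    obtain ⟨q, hq1, hq2⟩ := exists_prim_of_root ζ (H 0) hH0 (hcon 0 (by omega))
    have h1 : (Finset.range c).gcd G * q ∣ (Finset.range c).gcd G := by
      apply Finset.dvd_gcd
      intro a ha
      have ha' : a < c := by simpa using ha
      conv_rhs => rw [hH a ha']
      exact mul_dvd_mul_left _ (hq2 _ (hcon a ha'))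
    apply hq1
    obtain ⟨r, hr⟩ := h1
    have h2 : (Finset.range c).gcd G * (q * r) = (Finset.range c).gcd G * 1 := by
      rw [mul_one, ← mul_assoc]; exact hr.symm
    exact IsUnit.of_mul_eq_one _ (mul_left_cancel₀ hne h2)
  · intro c c' hc hcc
    apply Finset.gcd_mono
    intro a ha
    simp only [Finset.mem_range] at ha ⊢
    omega

end Pool.Agent.Helper86.HR
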