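import Pool.Agent.Helper86.HR.INVa
import Pool.Agent.Helper45.HR.Stmts

namespace Pool.Agent.Helper86.HR

theorem st_INV : Pool.Agent.Helper45.HR.ST_INV := by
  intro n t A B hA hB
  exact st_INV_aux n t A B hA hB

end Pool.Agent.Helper86.HR
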