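import Mathlib
import Pool.Agent.Helper45.HR.Stmts

namespace Pool.Agent.Helper86.HR

theorem st_LP : Pool.Agent.Helper45.HR.ST_LP := by
  intro n k hk2 hkn m y ϱ hm1 hmk hmc hy hanti hsys
  have hk1 : 1 ≤ k := by omega
  set D : ℕ → ℝ := fun c => (n : ℝ) + 1 - c - m c with hD
  have hD0 : ∀ c, 1 ≤ c → c ≤ k → 0 ≤ D c := by
    intro c h1 h2
    have := hmc c h1 h2
    have h3 : (m c : ℝ) + c ≤ n + 1 := by exact_mod_cast this
    simp only [hD]; linarith
  have hD1 : D 1 = 0 := by simp [hD, hm1]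
  -- Abel summation
  have hS : ∀ i, 1 ≤ i → i ≤ k → D i * (y (i - 2) + y (i - 1)) ≤
      ∑ c ∈ Finset.Ico 1 i, (D (c + 1) - D c) * (y (c - 1) + y c) := by
    intro i hi
    induction i, hi using Nat.le_induction with
    | base => intro _; simp [hD1]
    | succ i hi ih =>
      intro hik
      have ih' := ih (by omega)
      rw [Finset.sum_Ico_succ_top hi]
      have e1 : i + 1 - 2 = i - 1 := by omega
      have e2 : i + 1 - 1 = i := by omega
      rw [e1, e2]
      have h1 : y i ≤ y (i - 2) := hanti _ _ (by omega)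
      have h2 := hD0 i hi (by omega)
      nlinarith
  have hT : ∀ i, 1 ≤ i → ∑ c ∈ Finset.Ico 1 i, (y (c - 1) + y c) =
      2 * (∑ a ∈ Finset.range i, y a) - y 0 - y (i - 1) := by
    intro i hi
    induction i, hi using Nat.le_induction with
    | base => simp; ring
    | succ i hi ih =>
      rw [Finset.sum_Ico_succ_top hi, ih, Finset.sum_range_succ]
      have e2 : i + 1 - 1 = i := by omega
      rw [e2]
      ring
  have hc : ∀ i, 1 ≤ i → i < k → 2 * (∑ a ∈ Finset.range i, y a) - y 0 + ((n : ℝ) - i) * y (i - 1)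
      + ((n : ℝ) + 1 - i) * y (k - 1) ≤ ϱ := by
    intro i h1 h2
    have h3 := hsys i h1 h2
    have h4 : ∑ c ∈ Finset.Ico 1 i, ((m c : ℝ) - m (c + 1)) * (y (c - 1) + y c) =
        (∑ c ∈ Finset.Ico 1 i, (y (c - 1) + y c)) +
        ∑ c ∈ Finset.Ico 1 i, (D (c + 1) - D c) * (y (c - 1) + y c) := by
      rw [← Finset.sum_add_distrib]
      apply Finset.sum_congr rfl
      intro c _
      simp only [hD]
      push_cast
      ring
    rw [h4, hT i h1] at h3
    have h5 := hS i h1 (by omega)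
    have h6 : y (k - 1) ≤ y (i - 2) := hanti _ _ (by omega)
    have h7 := hD0 i h1 (by omega)
    have h8 : (m i : ℝ) = n + 1 - i - D i := by simp only [hD]; ring
    rw [h8] at h3
    nlinarith
  set P := ∑ a ∈ Finset.range k, y a with hP
  have hn0 : (0 : ℝ) < n := by
    have : 0 < n := by omega
    exact_mod_cast this
  have hc1 : y 0 + y (k - 1) ≤ ϱ / n := by
    have h := hc 1 le_rfl (by omega)
    simp only [Finset.sum_range_one, Nat.cast_one, Nat.sub_self] at h
    rw [le_div_iff₀ hn0]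
    nlinarith
  set s := ϱ * ((n : ℝ) + 1) / n - 2 * P with hs
  have hs' : s = ϱ + ϱ / n - 2 * P := by
    rw [hs]; field_simp
  -- tail
  have htail : ∀ i, i < k → ∑ a ∈ Finset.Ico i k, y a ≤ ((k : ℝ) - 1 - i) * y i + y (k - 1) := by
    intro i hi
    obtain ⟨l, rfl⟩ : ∃ l, k = l + 1 := ⟨k - 1, by omega⟩
    rw [Finset.sum_Ico_succ_top (by omega)]
    have : ∑ a ∈ Finset.Ico i l, y a ≤ ∑ a ∈ Finset.Ico i l, y i := by
      apply Finset.sum_le_sum
      intro a ha
      exact hanti _ _ (Finset.mem_Ico.mp ha).1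
    rw [Finset.sum_const, Nat.card_Ico, nsmul_eq_mul, Nat.cast_sub (by omega)] at this
    simp only [Nat.add_sub_cancel]
    push_cast
    linarith
  have hsplit : ∀ i, i ≤ k → P = (∑ a ∈ Finset.range i, y a) + ∑ a ∈ Finset.Ico i k, y a := by
    intro i hi
    rw [hP, Finset.sum_range_add_sum_Ico _ hi]
  have hstar : ∀ i, 1 ≤ i → i < k → ((n : ℝ) - i) * y (i - 1) + ((n : ℝ) - i) * y (k - 1)
      - 2 * ((k : ℝ) - 1 - i) * y i ≤ s := by
    intro i h1 h2
    have h3 := hc i h1 h2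
    have h4 := htail i h2
    have h5 := hsplit i h2.le
    rw [hs', h5]
    nlinarith
  have hlast : y (k - 2) ≤ s := by
    have h := hstar (k - 1) (by omega) (by omega)
    have e : k - 1 - 1 = k - 2 := by omega
    rw [e] at h
    have e2 : ((k - 1 : ℕ) : ℝ) = (k : ℝ) - 1 := by push_cast [Nat.cast_sub hk1]; ring
    rw [e2] at h
    have h1 : (k : ℝ) ≤ n := by exact_mod_cast hkn
    have h2 := hy (k - 2)
    have h3 := hy (k - 1)
    nlinarith
  have hs0 : 0 ≤ s := (hy _).trans hlast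
  have hstep : ∀ i, 1 ≤ i → i + 2 ≤ k → y (i - 1) ≤ s + 2 * y i := by
    intro i h1 h2
    have h := hstar i h1 (by omega)
    by_cases h3 : y (i - 1) < 2 * y i
    · linarith
    · push Not at h3
      have h4 : (k : ℝ) ≤ n := by exact_mod_cast hkn
      have h5 : (i : ℝ) + 2 ≤ k := by exact_mod_cast h2
      have h6 := hy i
      have h7 := hy (k - 1)
      nlinarith [mul_nonneg (by linarith : (0:ℝ) ≤ (n : ℝ) - i - 1) (by linarith : (0:ℝ) ≤ y (i-1) - 2 * y i),
        mul_nonneg (by linarith : (0:ℝ) ≤ (n : ℝ) - k) h6,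
        mul_nonneg (by linarith : (0:ℝ) ≤ (n : ℝ) - i) h7]
  have hdown : ∀ j, j + 2 ≤ k → y (k - 2 - j) ≤ (2 ^ (j + 1) - 1) * s := by
    intro j
    induction j with
    | zero => intro _; simpa using by linarith
    | succ j ih =>
      intro h
      have h1 := ih (by omega)
      have h2 := hstep (k - 2 - j) (by omega) (by omega)
      have e : k - 2 - j - 1 = k - 2 - (j + 1) := by omega
      rw [e] at h2
      calc y (k - 2 - (j + 1)) ≤ s + 2 * y (k - 2 - j) := h2
        _ ≤ s + 2 * ((2 ^ (j + 1) - 1) * s) := by linarith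
        _ = (2 ^ (j + 1 + 1) - 1) * s := by ring
  have hy0 : y 0 ≤ 2 ^ (n - 1) * s := by
    have h := hdown (k - 2) (by omega)
    rw [Nat.sub_self] at h
    have e : k - 2 + 1 = k - 1 := by omega
    rw [e] at h
    have h1 : (2 : ℝ) ^ (k - 1) ≤ 2 ^ (n - 1) := by
      apply pow_le_pow_right₀ (by norm_num); omega
    nlinarith
  have hPle : P ≤ n * (2 ^ (n - 1) * s) := by
    calc P ≤ ∑ a ∈ Finset.range k, y 0 := Finset.sum_le_sum (fun a _ => hanti _ _ (Nat.zero_le _))
      _ = k * y 0 := by simp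
      _ ≤ n * y 0 := mul_le_mul_of_nonneg_right (by exact_mod_cast hkn) (hy 0)
      _ ≤ n * (2 ^ (n - 1) * s) := mul_le_mul_of_nonneg_left hy0 hn0.le
  have h2n : (2 : ℝ) ^ n = 2 * 2 ^ (n - 1) := by
    rw [← pow_succ']; congr 1; omega
  have hfin : 2 * (P * (1 / ((n : ℝ) * 2 ^ n))) ≤ s := by
    rw [h2n, show 2 * (P * (1 / ((n : ℝ) * (2 * 2 ^ (n - 1))))) = P / (n * 2 ^ (n - 1)) by
      field_simp]
    rw [div_le_iff₀ (by positivity)]
    linarith
  have : P * (1 + 1 / ((n : ℝ) * 2 ^ n)) = P + P * (1 / ((n : ℝ) * 2 ^ n)) := by ring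
  rw [this]
  have h9 : ϱ * (((n : ℝ) + 1) / (2 * n)) = (s + 2 * P) / 2 := by
    rw [hs]; field_simp; ring
  rw [h9]
  linarith

end Pool.Agent.Helper86.HR
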