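import Mathlib
import Pool.Agent.Helper45.HR.Stmts

namespace Pool.Agent.Helper86.HR

open Pool.Agent.Helper45.HR

/-- saturation of a subgroup of `ℤ^N` -/
def Sat {N : ℕ} (S : Submodule ℤ (Fin N → ℤ)) : Submodule ℤ (Fin N → ℤ) where
  carrier := {x | ∃ m : ℤ, m ≠ 0 ∧ m • x ∈ S}
  zero_mem' := ⟨1, one_ne_zero, by rw [smul_zero]; exact S.zero_mem⟩
  add_mem' := by
    rintro a b ⟨m, hm, ha⟩ ⟨m', hm', hb⟩
    refine ⟨m * m', mul_ne_zero hm hm', ?_⟩
    rw [smul_add]
    apply S.add_mem
    · rw [mul_comm, mul_smul]; exact S.smul_mem _ ha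
    · rw [mul_smul]; exact S.smul_mem _ hb
  smul_mem' := by
    rintro c x ⟨m, hm, hx⟩
    refine ⟨m, hm, ?_⟩
    rw [smul_comm]; exact S.smul_mem _ hx

theorem mem_Sat {N : ℕ} {S : Submodule ℤ (Fin N → ℤ)} {x : Fin N → ℤ} :
    x ∈ Sat S ↔ ∃ m : ℤ, m ≠ 0 ∧ m • x ∈ S := Iff.rfl

theorem Sat_mono {N : ℕ} {S T : Submodule ℤ (Fin N → ℤ)} (h : S ≤ T) : Sat S ≤ Sat T := by
  rintro x ⟨m, hm, hx⟩
  exact ⟨m, hm, h hx⟩

theorem le_Sat {N : ℕ} (S : Submodule ℤ (Fin N → ℤ)) : S ≤ Sat S :=
  fun x hx => ⟨1, one_ne_zero, by rwa [one_smul]⟩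

theorem finrank_le_of_le_Sat {N : ℕ} (M S : Submodule ℤ (Fin N → ℤ)) (h : M ≤ Sat S) :
    Module.finrank ℤ M ≤ Module.finrank ℤ S := by
  classical
  set b := Module.finBasis ℤ M with hb
  have h1 : ∀ i, ∃ m : ℤ, m ≠ 0 ∧ m • (b i : Fin N → ℤ) ∈ S := fun i => h (b i).2
  choose m hm hmS using h1
  have hli : LinearIndependent ℤ (fun i => (⟨m i • (b i : Fin N → ℤ), hmS i⟩ : S)) := by
    rw [Fintype.linearIndependent_iff]
    intro g hg
    have hb' := b.linearIndependent
    rw [Fintype.linearIndependent_iff] at hb'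
    have h2 := hb' (fun i => g i * m i) (by
      apply Subtype.ext
      have h3 := congrArg (Subtype.val) hg
      rw [Submodule.coe_sum] at h3 ⊢
      simp only [Submodule.coe_smul, Submodule.coe_zero] at h3 ⊢
      rw [← h3]
      apply Finset.sum_congr rfl
      intro i _
      rw [mul_smul])
    intro i
    have h4 := h2 i
    simp only [mul_eq_zero] at h4
    rcases h4 with h4 | h4
    · exact h4
    · exact absurd h4 (hm i)
  have := hli.fintype_card_le_finrank
  simpa using this

theorem finrank_span_Iio {N : ℕ} (G : ℕ → (Fin N → ℤ)) (j : ℕ) :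
    Module.finrank ℤ (Submodule.span ℤ (G '' Set.Iio j)) ≤ j := by
  classical
  have h := finrank_span_finset_le_card (R := ℤ) ((Finset.range j).image G)
  have e : (((Finset.range j).image G : Finset (Fin N → ℤ)) : Set (Fin N → ℤ)) = G '' Set.Iio j := by
    rw [Finset.coe_image]; congr 1; ext x; simp
  rw [e] at h
  exact h.trans (Finset.card_image_le.trans (by simp))

variable {N : ℕ} (ν : (Fin N → ℤ) → ℝ)

theorem fibre (h2 : ∀ x y, ν (x - y) ≤ ν x + ν y)
    (h3 : ∀ (t : ℤ) (x : Fin N → ℤ), ν (t • x) = |(t : ℝ)| * ν x)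
    (h4 : ∀ s : ℝ, {x | ν x ≤ s}.Finite) (s : ℝ) (t : ℕ) (ht : 1 ≤ t) (r : ℕ)
    (hr : Module.finrank ℤ (Submodule.span ℤ {x | ν x ≤ s}) ≤ r) :
    {x | ν x ≤ s}.ncard ≤ t ^ r * {x | ν x ≤ 2 * s / t}.ncard := by
  classical
  set M := Submodule.span ℤ {x | ν x ≤ s} with hM
  set b := Module.finBasis ℤ M with hb
  haveI : NeZero t := ⟨by omega⟩
  set κ : (Fin N → ℤ) → (Fin (Module.finrank ℤ M) → ZMod t) := fun x =>
    if h : x ∈ M then fun i => ((b.repr ⟨x, h⟩ i : ℤ) : ZMod t) else 0 with hκ
  have hκx : ∀ (x) (h : x ∈ M) i, κ x i = ((b.repr ⟨x, h⟩ i : ℤ) : ZMod t) := by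
    intro x h i
    simp only [hκ, dif_pos h]
  have ht0 : (0 : ℝ) < t := by exact_mod_cast ht
  have hdiv : ∀ x x0, ν x ≤ s → ν x0 ≤ s → κ x = κ x0 → ∃ y, x - x0 = (t : ℤ) • y ∧
      ν y ≤ 2 * s / t := by
    intro x x0 hx hx0 hκκ
    have hxM : x ∈ M := Submodule.subset_span hx
    have hx0M : x0 ∈ M := Submodule.subset_span hx0
    have hd : ∀ i, (t : ℤ) ∣ b.repr (⟨x, hxM⟩ - ⟨x0, hx0M⟩) i := by
      intro i
      have h5 := congrFun hκκ i
      rw [hκx x hxM, hκx x0 hx0M] at h5
      have h6 := (ZMod.intCast_eq_intCast_iff_dvd_sub _ _ _).mp h5.symm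
      rw [map_sub, Finsupp.sub_apply]
      exact h6
    choose c hc using hd
    have hz : ((⟨x, hxM⟩ : M) - ⟨x0, hx0M⟩) = (t : ℤ) • ∑ i, c i • b i := by
      conv_lhs => rw [← b.sum_repr (⟨x, hxM⟩ - ⟨x0, hx0M⟩)]
      rw [Finset.smul_sum]
      apply Finset.sum_congr rfl
      intro i _
      rw [hc i, mul_smul]
    refine ⟨((∑ i, c i • b i : M) : Fin N → ℤ), ?_, ?_⟩
    · have := congrArg Subtype.val hz
      simpa using this
    · have h7 : x - x0 = (t : ℤ) • ((∑ i, c i • b i : M) : Fin N → ℤ) := by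
        have := congrArg Subtype.val hz
        simpa using this
      have h8 := h3 (t : ℤ) ((∑ i, c i • b i : M) : Fin N → ℤ)
      rw [← h7] at h8
      have h9 := h2 x x0
      rw [h8] at h9
      rw [le_div_iff₀ ht0]
      have h10 : |((t : ℤ) : ℝ)| = t := by simp
      rw [h10] at h9
      linarith
  set Bs := (h4 s).toFinset with hBs
  have hmem : ∀ x, x ∈ Bs ↔ ν x ≤ s := by intro x; simp [hBs]
  rw [Set.ncard_eq_toFinset_card _ (h4 s), Set.ncard_eq_toFinset_card _ (h4 (2 * s / t))]
  have h11 : Bs.card ≤ (h4 (2 * s / t)).toFinset.card * (Bs.image κ).card := by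
    apply Finset.card_le_mul_card_image
    intro a ha
    obtain ⟨x0, hx0, rfl⟩ := Finset.mem_image.mp ha
    apply Finset.card_le_card_of_injOn (fun x => fun i => (x i - x0 i) / (t : ℤ))
    · intro x hx
      rw [Finset.mem_coe, Finset.mem_filter] at hx
      obtain ⟨y, hy, hyν⟩ := hdiv x x0 ((hmem x).mp hx.1) ((hmem x0).mp hx0) hx.2
      have e : (fun i => (x i - x0 i) / (t : ℤ)) = y := by
        funext i
        have h12 := congrFun hy i
        simp only [Pi.sub_apply, Pi.smul_apply, smul_eq_mul] at h12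
        rw [h12]
        exact Int.mul_ediv_cancel_left _ (by omega)
      simp only [Finset.mem_coe, Set.Finite.mem_toFinset, Set.mem_setOf_eq]
      rw [e]; exact hyν
    · intro x hx x' hx' hxx
      rw [Finset.mem_coe, Finset.mem_filter] at hx hx'
      obtain ⟨y, hy, hyν⟩ := hdiv x x0 ((hmem x).mp hx.1) ((hmem x0).mp hx0) hx.2
      obtain ⟨y', hy', hyν'⟩ := hdiv x' x0 ((hmem x').mp hx'.1) ((hmem x0).mp hx0) hx'.2
      funext i
      have h12 := congrFun hy i
      have h13 := congrFun hy' i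
      have h14 := congrFun hxx i
      simp only [Pi.sub_apply, Pi.smul_apply, smul_eq_mul] at h12 h13 h14
      rw [h12, h13, Int.mul_ediv_cancel_left _ (by omega), Int.mul_ediv_cancel_left _ (by omega)]
        at h14
      rw [h14] at h12
      linarith
  have h15 : (Bs.image κ).card ≤ t ^ r := by
    calc (Bs.image κ).card ≤ Fintype.card (Fin (Module.finrank ℤ M) → ZMod t) :=
          Finset.card_le_univ _
      _ = t ^ Module.finrank ℤ M := by simp [ZMod.card]
      _ ≤ t ^ r := Nat.pow_le_pow_right (by omega) hr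
  calc Bs.card ≤ (h4 (2 * s / t)).toFinset.card * (Bs.image κ).card := h11
    _ ≤ (h4 (2 * s / t)).toFinset.card * t ^ r := Nat.mul_le_mul_left _ h15
    _ = _ := mul_comm _ _

/-- main inequality for a greedy family -/
theorem greedy_count (h0 : ν 0 = 0) (h1 : ∀ x, x ≠ 0 → 0 < ν x)
    (h2 : ∀ x y, ν (x - y) ≤ ν x + ν y)
    (h3 : ∀ (t : ℤ) (x : Fin N → ℤ), ν (t • x) = |(t : ℝ)| * ν x)
    (h4 : ∀ s : ℝ, {x | ν x ≤ s}.Finite) (G : ℕ → (Fin N → ℤ)) (k : ℕ)
    (hG0 : ∀ i < k, 0 < ν (G i))
    (hmono : ∀ i j, i ≤ j → j < k → ν (G i) ≤ ν (G j))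
    (hgr : ∀ i < k, ∀ x, ν x < ν (G i) → x ∈ Sat (Submodule.span ℤ (G '' Set.Iio i))) :
    ∀ j ≤ k, ∀ s : ℝ, 0 < s → (∀ x, ν x ≤ s → x ∈ Sat (Submodule.span ℤ (G '' Set.Iio j))) →
      ({x | ν x ≤ s}.ncard : ℝ) ≤ 3 ^ (j * j) * ∏ i ∈ Finset.range j, max 1 (s / ν (G i)) := by
  intro j
  induction j with
  | zero =>
    intro _ s hs hB
    have h5 : {x | ν x ≤ s} ⊆ {0} := by
      intro x hx
      obtain ⟨m, hm, hmx⟩ := hB x hx
      have h6 : (G '' Set.Iio 0) = ∅ := by simp
      rw [h6, Submodule.span_empty, Submodule.mem_bot] at hmx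
      exact (smul_eq_zero.mp hmx).resolve_left hm
    have h7 := Set.ncard_le_ncard h5 (Set.finite_singleton _)
    rw [Set.ncard_singleton] at h7
    simp only [Nat.mul_zero, pow_zero, Finset.range_zero, Finset.prod_empty, mul_one]
    exact_mod_cast h7
  | succ j ih =>
    intro hjk s hs hB
    have hGj := hG0 j (by omega)
    have hpow : (3 : ℝ) ^ (j * j) ≤ 3 ^ ((j + 1) * (j + 1)) := by
      apply pow_le_pow_right₀ (by norm_num)
      nlinarith
    by_cases hcase : s < ν (G j)
    · have h5 := ih (by omega) s hs (fun x hx => hgr j (by omega) x (lt_of_le_of_lt hx hcase))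
      refine h5.trans ?_
      rw [Finset.prod_range_succ, ← mul_assoc]
      have hp : 0 ≤ ∏ i ∈ Finset.range j, max 1 (s / ν (G i)) :=
        Finset.prod_nonneg (fun i _ => le_trans zero_le_one (le_max_left _ _))
      have h6 : (1 : ℝ) ≤ max 1 (s / ν (G j)) := le_max_left _ _
      calc (3 : ℝ) ^ (j * j) * ∏ i ∈ Finset.range j, max 1 (s / ν (G i))
          ≤ 3 ^ ((j + 1) * (j + 1)) * ∏ i ∈ Finset.range j, max 1 (s / ν (G i)) :=
            mul_le_mul_of_nonneg_right hpow hp
        _ ≤ (3 ^ ((j + 1) * (j + 1)) * ∏ i ∈ Finset.range j, max 1 (s / ν (G i))) *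
            max 1 (s / ν (G j)) := le_mul_of_one_le_right (by positivity) h6
    · push Not at hcase
      set t : ℕ := ⌊2 * s / ν (G j)⌋₊ + 1 with ht
      have ht1 : 1 ≤ t := by omega
      have ht0 : (0 : ℝ) < t := by exact_mod_cast ht1
      have hlt : 2 * s / ν (G j) < t := by
        rw [ht]; push_cast; exact Nat.lt_floor_add_one _
      have hle : (t : ℝ) ≤ 3 * (s / ν (G j)) := by
        rw [ht]; push_cast
        have h5 := Nat.floor_le (show 0 ≤ 2 * s / ν (G j) by positivity)
        have h6 : 1 ≤ s / ν (G j) := by rwa [le_div_iff₀ hGj, one_mul]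
        have h7 : 2 * s / ν (G j) = 2 * (s / ν (G j)) := by ring
        linarith
      have hsmall : 2 * s / t < ν (G j) := by
        rw [div_lt_iff₀ ht0]
        rw [div_lt_iff₀ hGj] at hlt
        linarith
      have hrk : Module.finrank ℤ (Submodule.span ℤ {x | ν x ≤ s}) ≤ j + 1 := by
        refine le_trans (finrank_le_of_le_Sat _ (Submodule.span ℤ (G '' Set.Iio (j + 1))) ?_)
          (finrank_span_Iio G (j + 1))
        rw [Submodule.span_le]
        exact hB
      have hfib := fibre ν h2 h3 h4 s t ht1 (j + 1) hrk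
      have h5 := ih (by omega) (2 * s / t) (by positivity)
        (fun x hx => hgr j (by omega) x (lt_of_le_of_lt hx hsmall))
      have hfib' : ({x | ν x ≤ s}.ncard : ℝ) ≤ (t : ℝ) ^ (j + 1) *
          ({x | ν x ≤ 2 * s / t}.ncard : ℝ) := by exact_mod_cast hfib
      refine hfib'.trans ?_
      have h6 : (t : ℝ) ^ j * ∏ i ∈ Finset.range j, max 1 (2 * s / t / ν (G i)) ≤
          ∏ i ∈ Finset.range j, (3 * max 1 (s / ν (G i))) := by
        have e : (t : ℝ) ^ j = ∏ _i ∈ Finset.range j, (t : ℝ) := by simp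
        rw [e, ← Finset.prod_mul_distrib]
        apply Finset.prod_le_prod
        · intro i _
          positivity
        · intro i hi
          have hi' : i < j := Finset.mem_range.mp hi
          have hGi := hG0 i (by omega)
          have h7 := hmono i j hi'.le (by omega)
          have h8 : s / ν (G j) ≤ s / ν (G i) := by
            apply div_le_div_of_nonneg_left hs.le hGi h7
          rw [mul_max_of_nonneg _ _ ht0.le]
          apply max_le
          · rw [mul_one]
            calc (t : ℝ) ≤ 3 * (s / ν (G j)) := hle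
              _ ≤ 3 * (s / ν (G i)) := by linarith
              _ ≤ 3 * max 1 (s / ν (G i)) := by
                apply mul_le_mul_of_nonneg_left (le_max_right _ _) (by norm_num)
          · have h9 : (t : ℝ) * (2 * s / t / ν (G i)) = 2 * (s / ν (G i)) := by
              field_simp
            rw [h9]
            have h10 : 0 ≤ s / ν (G i) := by positivity
            calc 2 * (s / ν (G i)) ≤ 3 * (s / ν (G i)) := by linarith
              _ ≤ 3 * max 1 (s / ν (G i)) := by
                apply mul_le_mul_of_nonneg_left (le_max_right _ _) (by norm_num)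
      have h11 : (t : ℝ) ≤ 3 * max 1 (s / ν (G j)) :=
        hle.trans (mul_le_mul_of_nonneg_left (le_max_right _ _) (by norm_num))
      have hp1 : 0 ≤ ∏ i ∈ Finset.range j, (3 * max 1 (s / ν (G i))) :=
        Finset.prod_nonneg (fun i _ => by positivity)
      calc (t : ℝ) ^ (j + 1) * ({x | ν x ≤ 2 * s / t}.ncard : ℝ)
          ≤ (t : ℝ) ^ (j + 1) * (3 ^ (j * j) * ∏ i ∈ Finset.range j,
              max 1 (2 * s / t / ν (G i))) := mul_le_mul_of_nonneg_left h5 (by positivity)
        _ = 3 ^ (j * j) * (t * ((t : ℝ) ^ j * ∏ i ∈ Finset.range j,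
              max 1 (2 * s / t / ν (G i)))) := by ring
        _ ≤ 3 ^ (j * j) * ((3 * max 1 (s / ν (G j))) *
              ∏ i ∈ Finset.range j, (3 * max 1 (s / ν (G i)))) := by
            apply mul_le_mul_of_nonneg_left _ (by positivity)
            apply mul_le_mul h11 h6 _ (by positivity)
            apply mul_nonneg (by positivity)
            exact Finset.prod_nonneg (fun i _ => le_trans zero_le_one (le_max_left _ _))
        _ = 3 ^ (j * j + j + 1) * ∏ i ∈ Finset.range (j + 1), max 1 (s / ν (G i)) := by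
            rw [Finset.prod_mul_distrib, Finset.prod_const, Finset.card_range,
              Finset.prod_range_succ]
            ring
        _ ≤ 3 ^ ((j + 1) * (j + 1)) * ∏ i ∈ Finset.range (j + 1), max 1 (s / ν (G i)) := by
            apply mul_le_mul_of_nonneg_right
            · apply pow_le_pow_right₀ (by norm_num)
              nlinarith
            · exact Finset.prod_nonneg (fun i _ => le_trans zero_le_one (le_max_left _ _))

/-- greedy families -/
def Greedy (G : ℕ → (Fin N → ℤ)) (k : ℕ) : Prop :=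
  LinearIndependent ℤ (fun i : Fin k => G i) ∧ (∀ i < k, ν (G i) ≤ 1) ∧
    ∀ i < k, ∀ x, ν x < ν (G i) → x ∈ Sat (Submodule.span ℤ (G '' Set.Iio i))

theorem greedy_ext (h4 : ∀ s : ℝ, {x | ν x ≤ s}.Finite) (G : ℕ → (Fin N → ℤ)) (k : ℕ)
    (hG : Greedy ν G k)
    (hx : ∃ x, ν x ≤ 1 ∧ x ∉ Sat (Submodule.span ℤ (G '' Set.Iio k))) :
    ∃ G', Greedy ν G' (k + 1) := by
  classical
  obtain ⟨x, hx1, hx2⟩ := hx
  have hfin : {x | ν x ≤ 1 ∧ x ∉ Sat (Submodule.span ℤ (G '' Set.Iio k))}.Finite :=
    (h4 1).subset (fun x hx => hx.1)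
  obtain ⟨z, ⟨hz1, hz2⟩, hzmin⟩ := Set.exists_min_image _ ν hfin ⟨x, hx1, hx2⟩
  refine ⟨Function.update G k z, ?_, ?_, ?_⟩
  · have him : ∀ j ≤ k, Function.update G k z '' Set.Iio j = G '' Set.Iio j := by
      intro j hj
      apply Set.image_congr
      intro i hi
      rw [Function.update_of_ne]
      have : i < j := hi
      omega
    rw [Fintype.linearIndependent_iff]
    intro r hr
    rw [Fin.sum_univ_castSucc] at hr
    simp only [Fin.val_castSucc, Fin.val_last, Function.update_self] at hr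
    have e1 : ∀ i : Fin k, Function.update G k z i = G i := by
      intro i
      rw [Function.update_of_ne]
      have := i.2; omega
    simp only [e1] at hr
    have hlast : r (Fin.last k) = 0 := by
      by_contra hne
      apply hz2
      refine ⟨r (Fin.last k), hne, ?_⟩
      have h5 : r (Fin.last k) • z = - ∑ i : Fin k, r i.castSucc • G i := by
        rw [eq_neg_iff_add_eq_zero, add_comm]; exact hr
      rw [h5]
      apply Submodule.neg_mem
      apply Submodule.sum_mem
      intro i _
      apply Submodule.smul_mem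
      exact Submodule.subset_span ⟨i, i.2, rfl⟩
    rw [hlast, zero_smul, add_zero] at hr
    have h6 := (Fintype.linearIndependent_iff.mp hG.1) _ hr
    intro i
    induction i using Fin.lastCases with
    | last => exact hlast
    | cast i => exact h6 i
  · intro i hi
    by_cases hik : i = k
    · rw [hik, Function.update_self]; exact hz1
    · rw [Function.update_of_ne hik]; exact hG.2.1 i (by omega)
  · intro i hi y hy
    have him : ∀ j ≤ k, Function.update G k z '' Set.Iio j = G '' Set.Iio j := by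
      intro j hj
      apply Set.image_congr
      intro i hi
      rw [Function.update_of_ne]
      have : i < j := hi
      omega
    rw [him i (by omega)]
    by_cases hik : i = k
    · subst hik
      rw [Function.update_self] at hy
      by_contra hcon
      have := hzmin y ⟨by linarith, hcon⟩
      linarith
    · rw [Function.update_of_ne hik] at hy
      exact hG.2.2 i (by omega) y hy

theorem st_M1 : ST_M1 := by
  classical
  intro N
  refine ⟨3 ^ (N * N), by positivity, ?_⟩
  intro ν h0 h1 h2 h3 h4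
  -- maximal greedy family
  have hbound : ∀ k G, Greedy ν G k → k ≤ N := by
    intro k G hG
    have := hG.1.fintype_card_le_finrank
    simpa using this
  have hex0 : ∃ G, Greedy ν G 0 := by
    refine ⟨fun _ => 0, ?_, ?_, ?_⟩
    · exact linearIndependent_empty_type
    · intro i hi; omega
    · intro i hi; omega
  obtain ⟨k, ⟨G, hG⟩, hmax⟩ : ∃ k, (∃ G, Greedy ν G k) ∧ ¬ ∃ G, Greedy ν G (k + 1) := by
    by_contra hcon
    push Not at hcon
    have : ∀ k, ∃ G, Greedy ν G k := by
      intro k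
      induction k with
      | zero => exact hex0
      | succ k ih =>
        obtain ⟨G, hG⟩ := ih
        exact hcon k ⟨G, hG⟩
    obtain ⟨G, hG⟩ := this (N + 1)
    have := hbound _ _ hG
    omega
  have hkN := hbound k G hG
  have hsat : ∀ x, ν x ≤ 1 → x ∈ Sat (Submodule.span ℤ (G '' Set.Iio k)) := by
    intro x hx
    by_contra hcon
    exact hmax (greedy_ext ν h4 G k hG ⟨x, hx, hcon⟩)
  have hGne : ∀ i < k, G i ≠ 0 := fun i hi => hG.1.ne_zero ⟨i, hi⟩
  have hGpos : ∀ i < k, 0 < ν (G i) := fun i hi => h1 _ (hGne i hi)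
  have hmono : ∀ i j, i ≤ j → j < k → ν (G i) ≤ ν (G j) := by
    intro i j hij hjk
    by_contra hlt
    push Not at hlt
    have hne : i ≠ j := by rintro rfl; exact lt_irrefl _ hlt
    obtain ⟨m, hm, hmS⟩ := hG.2.2 i (by omega) (G j) hlt
    -- contradiction with independence
    have hnot := hG.1.notMem_span_image (s := {a : Fin k | (a : ℕ) < i}) (x := ⟨j, hjk⟩) (by
      simp only [Set.mem_setOf_eq]; omega)
    have himg : (fun a : Fin k => G a) '' {a : Fin k | (a : ℕ) < i} = G '' Set.Iio i := by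
      ext y
      constructor
      · rintro ⟨a, ha, rfl⟩
        exact ⟨a, ha, rfl⟩
      · rintro ⟨a, ha, rfl⟩
        have ha' : a < i := ha
        exact ⟨⟨a, by omega⟩, ha, rfl⟩
    have hlin := (Fintype.linearIndependent_iff.mp hG.1)
    -- `m • G j` is a combination of `G a`, `a < i`
    have hcomb : ∀ y ∈ Submodule.span ℤ (G '' Set.Iio i), ∃ r : Fin k → ℤ,
        (∀ a : Fin k, i ≤ (a : ℕ) → r a = 0) ∧ y = ∑ a, r a • G a := by
      intro y hy
      induction hy using Submodule.span_induction with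
      | mem y hy =>
        obtain ⟨a, ha, rfl⟩ := hy
        have ha' : a < i := ha
        refine ⟨Pi.single ⟨a, by omega⟩ 1, ?_, ?_⟩
        · intro b hb
          rw [Pi.single_eq_of_ne]
          intro h
          have := congrArg Fin.val h
          simp only at this
          omega
        · simp [Pi.single_apply, ite_smul]
      | zero => exact ⟨0, fun _ _ => rfl, by simp⟩
      | add x y _ _ hx hy =>
        obtain ⟨r, hr1, hr2⟩ := hx
        obtain ⟨r', hr1', hr2'⟩ := hy
        refine ⟨r + r', fun a ha => by simp [hr1 a ha, hr1' a ha], ?_⟩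
        rw [hr2, hr2', ← Finset.sum_add_distrib]
        simp [add_smul]
      | smul c x _ hx =>
        obtain ⟨r, hr1, hr2⟩ := hx
        refine ⟨c • r, fun a ha => by simp [hr1 a ha], ?_⟩
        rw [hr2, Finset.smul_sum]
        simp [mul_smul]
    obtain ⟨r, hr1, hr2⟩ := hcomb _ hmS
    have hz := hlin (fun a => r a - (if a = ⟨j, hjk⟩ then m else 0)) (by
      simp only [sub_smul, Finset.sum_sub_distrib, ite_smul, zero_smul, Finset.sum_ite_eq',
        Finset.mem_univ, if_true]
      rw [← hr2, sub_self]) ⟨j, hjk⟩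
    simp only [if_true] at hz
    rw [hr1 ⟨j, hjk⟩ (by simp only; omega)] at hz
    apply hm
    linarith
  refine ⟨k, fun i => G i, hG.1, fun i => hG.2.1 i i.2, ?_, ?_, ?_⟩
  · intro i j hij
    exact hmono i j hij j.2
  · intro x hx
    obtain ⟨m, hm, hmS⟩ := hsat x hx
    refine ⟨m, hm, ?_⟩
    have : Set.range (fun i : Fin k => G i) = G '' Set.Iio k := by
      ext y
      constructor
      · rintro ⟨a, rfl⟩
        exact ⟨a, a.2, rfl⟩
      · rintro ⟨a, ha, rfl⟩
        exact ⟨⟨a, ha⟩, rfl⟩
    rw [this]; exact hmS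
  · have hmain := greedy_count ν h0 h1 h2 h3 h4 G k hGpos hmono hG.2.2 k le_rfl 1 one_pos hsat
    refine hmain.trans ?_
    rw [← Fin.prod_univ_eq_prod_range (fun i : ℕ => max 1 (1 / ν (G i))) k]
    apply mul_le_mul
    · apply pow_le_pow_right₀ (by norm_num)
      exact Nat.mul_le_mul hkN hkN
    · apply Finset.prod_le_prod
      · intro i _
        exact le_trans zero_le_one (le_max_left _ _)
      · intro i _
        have h5 := hGpos i i.2
        have h6 := hG.2.1 i i.2
        rw [one_div]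
        exact max_le ((one_le_inv₀ h5).mpr h6) le_rfl
    · exact Finset.prod_nonneg (fun i _ => le_trans zero_le_one (le_max_left _ _))
    · positivity

end Pool.Agent.Helper86.HR
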