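import Mathlib
import Pool.Agent.Helper45.HR.Stmts

open Polynomial

namespace Pool.Agent.Helper86.HR

open Pool.Agent.Helper45.HR

/-- the change of variables `x ↦ t + 1/x` on polynomials of formal degree `n` -/
noncomputable def TT (n : ℕ) (t : ℤ) : ℤ[X] →ₗ[ℤ] ℤ[X] where
  toFun P := reflect n (taylor t P)
  map_add' := by intro a b; rw [map_add, reflect_add]
  map_smul' := by
    intro c a
    rw [map_smul, smul_eq_C_mul, reflect_C_mul, RingHom.id_apply, smul_eq_C_mul]

theorem TT_apply (n : ℕ) (t : ℤ) (P : ℤ[X]) : TT n t P = reflect n (taylor t P) := rfl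

theorem TT_inj (n : ℕ) (t : ℤ) : Function.Injective (TT n t) := by
  intro a b h
  rw [TT_apply, TT_apply] at h
  have := congrArg (reflect n) h
  rw [reflect_reflect, reflect_reflect] at this
  exact taylor_injective t this

theorem natDegree_TT_le {n : ℕ} {t : ℤ} {P : ℤ[X]} (h : P.natDegree ≤ n) :
    (TT n t P).natDegree ≤ n := by
  rw [TT_apply]
  refine natDegree_reflect_le.trans ?_
  rw [natDegree_taylor]
  exact max_le le_rfl h

theorem dvd_TT {n : ℕ} (hn : 1 ≤ n) (t : ℤ) (F g : ℤ[X]) (hF : F.natDegree = n)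
    (hirr : Irreducible (F.map (Int.castRingHom ℚ))) (hg : g ∣ TT n t F) :
    g.natDegree = 0 ∨ g.natDegree = n := by
  have hF0 : F ≠ 0 := by
    intro h; rw [h, natDegree_zero] at hF; omega
  obtain ⟨h, hh⟩ := hg
  have hT0 : TT n t F ≠ 0 := by
    intro h0
    exact hF0 (TT_inj n t (by rw [h0, map_zero]))
  have hg0 : g ≠ 0 := by rintro rfl; exact hT0 (by rw [hh, zero_mul])
  have hh0 : h ≠ 0 := by rintro rfl; exact hT0 (by rw [hh, mul_zero])
  have hdeg : g.natDegree + h.natDegree ≤ n := by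
    rw [← natDegree_mul hg0 hh0, ← hh]
    exact natDegree_TT_le hF.le
  have hmul := reflect_mul g h (F := g.natDegree) (G := n - g.natDegree) le_rfl (by omega)
  have e : g.natDegree + (n - g.natDegree) = n := by omega
  rw [e, ← hh, TT_apply, reflect_reflect] at hmul
  set A := reflect g.natDegree g with hA
  set B := reflect (n - g.natDegree) h with hB
  have hA1 : A.natDegree ≤ g.natDegree := natDegree_reflect_le.trans (by simp)
  have hB1 : B.natDegree ≤ n - g.natDegree := natDegree_reflect_le.trans (by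
    apply max_le le_rfl; omega)
  have hA0 : A ≠ 0 := by rw [hA, Ne, reflect_eq_zero_iff]; exact hg0
  have hB0 : B ≠ 0 := by rw [hB, Ne, reflect_eq_zero_iff]; exact hh0
  have hAB : A.natDegree + B.natDegree = n := by
    rw [← natDegree_mul hA0 hB0, ← hmul, natDegree_taylor, hF]
  -- transport back
  have hF2 : F = taylor (-t) A * taylor (-t) B := by
    rw [← taylor_mul, ← hmul, taylor_taylor, neg_add_cancel, taylor_zero]
  have hF3 : F.map (Int.castRingHom ℚ) = (taylor (-t) A).map (Int.castRingHom ℚ) *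
      (taylor (-t) B).map (Int.castRingHom ℚ) := by
    rw [← Polynomial.map_mul, ← hF2]
  have hinj : Function.Injective (Int.castRingHom ℚ) := RingHom.injective_int _
  rcases hirr.isUnit_or_isUnit hF3 with hu | hu
  · have := natDegree_eq_zero_of_isUnit hu
    rw [natDegree_map_eq_of_injective hinj, natDegree_taylor] at this
    left; omega
  · have := natDegree_eq_zero_of_isUnit hu
    rw [natDegree_map_eq_of_injective hinj, natDegree_taylor] at this
    right; omega

theorem card_le_of_natDegree (N c : ℕ) (v : Fin c → ℤ[X]) (hv : LinearIndependent ℤ v)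
    (hd : ∀ a, (v a).natDegree ≤ N) : c ≤ N + 1 := by
  have hli : LinearIndependent ℤ (fun a : Fin c => (fun i : Fin (N + 1) => (v a).coeff i)) := by
    rw [Fintype.linearIndependent_iff] at hv ⊢
    intro r hr
    apply hv
    ext j
    rw [coeff_zero]
    by_cases hj : j ≤ N
    · have := congrFun hr ⟨j, by omega⟩
      simpa [finsetSum_coeff] using this
    · rw [finsetSum_coeff]
      apply Finset.sum_eq_zero
      intro a _
      rw [coeff_smul, coeff_eq_zero_of_natDegree_lt, smul_zero]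
      have := hd a; omega
  have := hli.fintype_card_le_finrank
  simpa using this

theorem natDegree_zero_of_no_root (P : ℤ[X]) (h : ∀ ζ : ℂ, aeval ζ P ≠ 0) : P.natDegree = 0 := by
  by_contra hne
  have hinj : Function.Injective (Int.castRingHom ℂ) := RingHom.injective_int _
  have hd : 0 < (P.map (Int.castRingHom ℂ)).degree := by
    rw [← natDegree_pos_iff_degree_pos, natDegree_map_eq_of_injective hinj]
    omega
  obtain ⟨ζ, hζ⟩ := Complex.exists_root hd
  apply h ζ
  rw [IsRoot.def, eval_map] at hζ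
  exact hζ

theorem map_TT (n : ℕ) (t : ℤ) (P : ℤ[X]) : (TT n t P).map (Int.castRingHom ℂ) =
    reflect n (taylor (t : ℂ) (P.map (Int.castRingHom ℂ))) := by
  rw [TT_apply, ← reflect_map, map_taylor]
  simp

theorem sum_TT (n k : ℕ) (t : ℤ) (S : Fin k → ℂ) (G : Fin k → ℤ[X]) :
    ∑ a, C (S a) * (TT n t (G a)).map (Int.castRingHom ℂ) =
      reflect n (taylor (t : ℂ) (∑ a, C (S a) * (G a).map (Int.castRingHom ℂ))) := by
  classical
  have : ∀ s : Finset (Fin k), ∑ a ∈ s, C (S a) * (TT n t (G a)).map (Int.castRingHom ℂ) =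
      reflect n (taylor (t : ℂ) (∑ a ∈ s, C (S a) * (G a).map (Int.castRingHom ℂ))) := by
    intro s
    induction s using Finset.induction_on with
    | empty => simp
    | insert a s ha ih =>
      rw [Finset.sum_insert ha, Finset.sum_insert ha, ih, map_add, reflect_add, taylor_mul,
        taylor_C, reflect_C_mul, map_TT]
  exact this Finset.univ

theorem chain (n : ℕ) (c₁ : ℝ) (hc₁ : 0 < c₁)
    (hstep : ∀ d μ c c' : ℕ, d + μ ≤ n → 1 ≤ c → c < c' →
  c' ≤ n + 1 → ∀ (h : ℤ[X]) (H Y : ℕ → ℤ[X]), h ≠ 0 → h.natDegree = μ →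
  (∀ a < c, (H a).natDegree ≤ d) → (∀ a < c', (Y a).natDegree ≤ d + μ) →
  (∀ a < c, Y a = h * H a) →
  (∀ ζ : ℂ, ∃ a < c, aeval ζ (H a) ≠ 0) → (∀ ζ : ℂ, ∃ a < c', aeval ζ (Y a) ≠ 0) →
  ∀ L : ℕ → ℝ, (∀ a b, a ≤ b → L b ≤ L a) → (∀ a, 0 < L a) → ∀ ρ : ℝ, 0 < ρ →
  (∃ S T : ℕ → ℂ, (∀ a < c, ‖S a‖ ≤ L a) ∧ (∀ a < c, ‖T a‖ ≤ L a) ∧
    ρ ≤ ‖resultant (∑ a ∈ Finset.range c, C (S a) * (H a).map (Int.castRingHom ℂ))
      (∑ a ∈ Finset.range c, C (T a) * (H a).map (Int.castRingHom ℂ)) d d‖) →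
  ∃ S T : ℕ → ℂ, (∀ a < c', ‖S a‖ ≤ L a) ∧ (∀ a < c', ‖T a‖ ≤ L a) ∧
    c₁ * ρ * (L (c - 1) * L (c' - 1)) ^ μ ≤
      ‖resultant (∑ a ∈ Finset.range c', C (S a) * (Y a).map (Int.castRingHom ℂ))
        (∑ a ∈ Finset.range c', C (T a) * (Y a).map (Int.castRingHom ℂ)) (d + μ) (d + μ)‖)
    (k : ℕ) (hkn : k ≤ n) (Gn g : ℕ → ℤ[X]) (H : ℕ → ℕ → ℤ[X])
    (hg0 : ∀ c, 1 ≤ c → g c ≠ 0)
    (hH : ∀ c, 1 ≤ c → ∀ a < c, Gn a = g c * H c a)
    (hHr : ∀ c, 1 ≤ c → ∀ ζ : ℂ, ∃ a < c, aeval ζ (H c a) ≠ 0)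
    (hdvd : ∀ c c', 1 ≤ c → c ≤ c' → g c' ∣ g c)
    (hm1 : (g 1).natDegree = n)
    (hHd : ∀ c, 1 ≤ c → c ≤ k → ∀ a < c, (H c a).natDegree ≤ n - (g c).natDegree)
    (L : ℕ → ℝ) (hLa : ∀ a b, a ≤ b → L b ≤ L a) (hL0 : ∀ a, 0 < L a) :
    ∀ i, 1 ≤ i → i ≤ k → ∃ S T : ℕ → ℂ, (∀ a < i, ‖S a‖ ≤ L a) ∧ (∀ a < i, ‖T a‖ ≤ L a) ∧
      c₁ ^ (i - 1) * ∏ c ∈ Finset.Ico 1 i,
        (L (c - 1) * L c) ^ ((g c).natDegree - (g (c + 1)).natDegree) ≤
      ‖resultant (∑ a ∈ Finset.range i, C (S a) * (H i a).map (Int.castRingHom ℂ))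
        (∑ a ∈ Finset.range i, C (T a) * (H i a).map (Int.castRingHom ℂ))
        (n - (g i).natDegree) (n - (g i).natDegree)‖ := by
  intro i hi
  induction i, hi using Nat.le_induction with
  | base =>
    intro _
    refine ⟨fun _ => 0, fun _ => 0, fun a _ => by simpa using (hL0 a).le,
      fun a _ => by simpa using (hL0 a).le, ?_⟩
    simp only [hm1, Nat.sub_self]
    rw [resultant_zero_left_deg]
    simp
  | succ i hi ih =>
    intro hik
    obtain ⟨S, T, hS, hT, hST⟩ := ih (by omega)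
    obtain ⟨q, hq⟩ := hdvd i (i + 1) hi (by omega)
    have hgi := hg0 i hi
    have hgi1 := hg0 (i + 1) (by omega)
    have hq0 : q ≠ 0 := by rintro rfl; exact hgi (by rw [hq, mul_zero])
    have hqd : (g i).natDegree = (g (i + 1)).natDegree + q.natDegree := by
      rw [hq, natDegree_mul hgi1 hq0]
    have hd1 : (g i).natDegree ≤ n := by
      have h := natDegree_le_of_dvd (hdvd 1 i le_rfl hi) (hg0 1 le_rfl)
      omega
    have hμ : (g i).natDegree - (g (i + 1)).natDegree = q.natDegree := by omega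
    have hdd : n - (g i).natDegree + q.natDegree = n - (g (i + 1)).natDegree := by omega
    have hρ : 0 < c₁ ^ (i - 1) * ∏ c ∈ Finset.Ico 1 i,
        (L (c - 1) * L c) ^ ((g c).natDegree - (g (c + 1)).natDegree) := by
      apply mul_pos (pow_pos hc₁ _)
      apply Finset.prod_pos
      intro c _
      exact pow_pos (mul_pos (hL0 _) (hL0 _)) _
    have key := hstep (n - (g i).natDegree) q.natDegree i (i + 1) (by omega) hi (by omega)
      (by omega) q (H i) (H (i + 1)) hq0 rfl (hHd i hi (by omega))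
      (by intro a ha; rw [hdd]; exact hHd (i + 1) (by omega) hik a ha)
      (by
        intro a ha
        have h1 := hH i hi a ha
        have h2 := hH (i + 1) (by omega) a (by omega)
        rw [hq] at h1
        apply mul_left_cancel₀ hgi1
        rw [← h2, h1, mul_assoc])
      (hHr i hi) (hHr (i + 1) (by omega)) L hLa hL0 _ hρ ⟨S, T, hS, hT, hST⟩
    obtain ⟨S', T', hS', hT', hST'⟩ := key
    refine ⟨S', T', hS', hT', ?_⟩
    rw [hdd] at hST'
    refine le_trans (le_of_eq ?_) hST'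
    rw [Finset.prod_Ico_succ_top hi, hμ]
    have e1 : i + 1 - 1 = i := by omega
    rw [e1]
    obtain ⟨j, rfl⟩ : ∃ j, i = j + 1 := ⟨i - 1, by omega⟩
    simp only [Nat.add_sub_cancel]
    ring


theorem st_N2 (h1 : ST_STEP) (h2 : ST_GCD) (h3 : ST_LP) (h4 : ST_INV) : ST_N2 := by
  classical
  intro n hn
  obtain ⟨c₁', hc₁', hstep'⟩ := h1 n
  set c₂ : ℝ := min c₁' 1 with hc₂
  have hc₂0 : 0 < c₂ := lt_min hc₁' one_pos
  have hc₂1 : c₂ ≤ 1 := min_le_right _ _
  have hc₂c : c₂ ≤ c₁' := min_le_left _ _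
  have hn0 : (0 : ℝ) < n := by
    have : 0 < n := by omega
    exact_mod_cast this
  refine ⟨Real.exp (n * (-Real.log c₂) * (((n : ℝ) + 1) / (2 * n))), Real.exp_pos _, ?_⟩
  intro k hk2 hkn G hGdeg hGli ⟨F, hFdeg, hFirr, hFspan⟩ L hL hL1 R hR
  have hk0 : 0 < k := by omega
  -- choose t
  have hG0 : G ⟨0, hk0⟩ ≠ 0 := hGli.ne_zero _
  obtain ⟨t, ht⟩ : ∃ t : ℤ, (G ⟨0, hk0⟩).eval t ≠ 0 := by
    by_contra hcon
    push Not at hcon
    apply hG0
    apply Polynomial.funext
    intro r
    rw [hcon r, eval_zero]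
  set Gn : ℕ → ℤ[X] := fun a => if h : a < k then TT n t (G ⟨a, h⟩) else 0 with hGn
  have hGna : ∀ (a : ℕ) (h : a < k), Gn a = TT n t (G ⟨a, h⟩) := by
    intro a h; simp only [hGn, dif_pos h]
  have hGnd : ∀ a, a < k → (Gn a).natDegree ≤ n := by
    intro a h
    rw [hGna a h]
    exact natDegree_TT_le (hGdeg _)
  have hGn0 : ∀ a, a < k → Gn a ≠ 0 := by
    intro a h h0
    rw [hGna a h] at h0
    exact hGli.ne_zero ⟨a, h⟩ (TT_inj n t (by rw [h0, map_zero]))
  have hGn0d : (Gn 0).natDegree = n := by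
    apply le_antisymm (hGnd 0 hk0)
    apply le_natDegree_of_ne_zero
    rw [hGna 0 hk0, TT_apply, coeff_reflect, revAt_le le_rfl, Nat.sub_self, taylor_coeff_zero]
    exact ht
  obtain ⟨g, hg, hganti⟩ := h2 Gn (hGn0 0 hk0)
  have hHex : ∀ c, ∃ H : ℕ → ℤ[X], 1 ≤ c → ∀ a < c, Gn a = g c * H a := by
    intro c
    by_cases hc : 1 ≤ c
    · have h := (hg c hc).2.1
      have : ∀ a, ∃ q : ℤ[X], a < c → Gn a = g c * q := by
        intro a
        by_cases ha : a < c
        · obtain ⟨q, hq⟩ := h a ha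
          exact ⟨q, fun _ => hq⟩
        · exact ⟨0, fun h => absurd h ha⟩
      choose H hH using this
      exact ⟨H, fun _ a ha => hH a ha⟩
    · exact ⟨fun _ => 0, fun h => absurd h hc⟩
  choose H hH using hHex
  have hHr : ∀ c, 1 ≤ c → ∀ ζ : ℂ, ∃ a < c, aeval ζ (H c a) ≠ 0 :=
    fun c hc => (hg c hc).2.2 (H c) (hH c hc)
  have hg0 : ∀ c, 1 ≤ c → g c ≠ 0 := fun c hc => (hg c hc).1
  have hHne : ∀ c, 1 ≤ c → c ≤ k → ∀ a < c, H c a ≠ 0 := by
    intro c hc hck a ha h0
    apply hGn0 a (by omega)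
    rw [hH c hc a ha, h0, mul_zero]
  have hHdeg : ∀ c, 1 ≤ c → c ≤ k → ∀ a < c, (Gn a).natDegree = (g c).natDegree +
      (H c a).natDegree := by
    intro c hc hck a ha
    rw [hH c hc a ha, natDegree_mul (hg0 c hc) (hHne c hc hck a ha)]
  have hHd : ∀ c, 1 ≤ c → c ≤ k → ∀ a < c, (H c a).natDegree ≤ n - (g c).natDegree := by
    intro c hc hck a ha
    have h5 := hHdeg c hc hck a ha
    have h6 := hGnd a (by omega)
    omega
  have hm1 : (g 1).natDegree = n := by
    have h5 : (H 1 0).natDegree = 0 := by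
      apply natDegree_zero_of_no_root
      intro ζ
      obtain ⟨a, ha, h⟩ := hHr 1 le_rfl ζ
      have : a = 0 := by omega
      rwa [this] at h
    have h6 := hHdeg 1 le_rfl (by omega) 0 (by omega)
    omega
  have hmle : ∀ c, 1 ≤ c → (g c).natDegree ≤ n := by
    intro c hc
    have h := natDegree_le_of_dvd (hganti 1 c le_rfl hc) (hg0 1 le_rfl)
    omega
  have hmc : ∀ c, 1 ≤ c → c ≤ k → (g c).natDegree + c ≤ n + 1 := by
    intro c hc hck
    have hli : LinearIndependent ℤ (fun a : Fin c => H c a) := by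
      rw [Fintype.linearIndependent_iff] at hGli ⊢
      intro r hr
      set r' : Fin k → ℤ := fun a => if h : (a : ℕ) < c then r ⟨a, h⟩ else 0 with hr'
      have hsum : ∑ a : Fin k, r' a • G a = 0 := by
        apply TT_inj n t
        rw [map_sum, map_zero]
        have e1 : ∀ a : Fin k, TT n t (r' a • G a) = (fun a : ℕ => if h : a < c then
            r ⟨a, h⟩ • Gn a else 0) a := by
          intro a
          simp only [hr']
          split_ifs with h
          · rw [map_smul, hGna a a.2]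
          · simp
        rw [Finset.sum_congr rfl (fun a _ => e1 a)]
        rw [Fin.sum_univ_eq_sum_range (fun a : ℕ => if h : a < c then r ⟨a, h⟩ • Gn a else 0) k]
        have e2 : ∑ a ∈ Finset.range k, (if h : a < c then r ⟨a, h⟩ • Gn a else 0) =
            ∑ a ∈ Finset.range c, (if h : a < c then r ⟨a, h⟩ • Gn a else 0) := by
          symm
          apply Finset.sum_subset
          · intro x hx
            simp only [Finset.mem_range] at hx ⊢
            omega
          · intro x _ hx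
            simp only [Finset.mem_range] at hx
            rw [dif_neg hx]
        rw [e2, ← Fin.sum_univ_eq_sum_range (fun a : ℕ => if h : a < c then r ⟨a, h⟩ • Gn a else 0) c]
        have e3 : ∀ a : Fin c, (if h : (a : ℕ) < c then r ⟨a, h⟩ • Gn a else 0) =
            g c * (r a • H c a) := by
          intro a
          rw [dif_pos a.2, hH c hc a a.2, mul_smul_comm]
        rw [Finset.sum_congr rfl (fun a _ => e3 a), ← Finset.mul_sum, hr, mul_zero]
      intro a
      have h7 := hGli r' hsum ⟨a, by have := a.2; omega⟩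
      simpa [hr'] using h7
    have h8 := card_le_of_natDegree (n - (g c).natDegree) c _ hli (fun a => hHd c hc hck a a.2)
    have h9 := hmle c hc
    omega
  have hmk : (g k).natDegree = 0 := by
    have hdv : g k ∣ TT n t F := by
      have hdvG : ∀ a : Fin k, g k ∣ TT n t (G a) := by
        intro a
        rw [← hGna a a.2]
        exact (hg k (by omega)).2.1 a a.2
      have hall : ∀ x ∈ Submodule.span ℤ (Set.range G), g k ∣ TT n t x := by
        intro x hx
        induction hx using Submodule.span_induction with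
        | mem x hx => obtain ⟨a, rfl⟩ := hx; exact hdvG a
        | zero => rw [map_zero]; exact dvd_zero _
        | add x y _ _ hx hy => rw [map_add]; exact dvd_add hx hy
        | smul c x _ hx => rw [map_smul]; exact dvd_smul_of_dvd c hx
      exact hall F hFspan
    rcases dvd_TT (by omega) t F (g k) hFdeg hFirr hdv with h | h
    · exact h
    · have := hmc k (by omega) le_rfl
      omega
  -- the sequence L
  set Ln : ℕ → ℝ := fun a => L ⟨min a (k - 1), by omega⟩ with hLn
  have hLn1 : ∀ a, 1 ≤ Ln a := fun a => hL1 _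
  have hLn0 : ∀ a, 0 < Ln a := fun a => lt_of_lt_of_le one_pos (hLn1 a)
  have hLna : ∀ a b, a ≤ b → Ln b ≤ Ln a := by
    intro a b hab
    apply hL
    rw [Fin.le_def]
    simp only
    omega
  have hLnL : ∀ a : Fin k, Ln a = L a := by
    intro a
    simp only [hLn]
    congr 1
    apply Fin.ext
    simp only
    have := a.2
    omega
  have hstep := hstep'
  -- weaken constant
  have hch := chain n c₂ hc₂0 (by
    intro d μ c c' a1 a2 a3 a4 h H Y b1 b2 b3 b4 b5 b6 b7 L d1 d2 ρ d3 d4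
    obtain ⟨S, T, hS, hT, hST⟩ := hstep' d μ c c' a1 a2 a3 a4 h H Y b1 b2 b3 b4 b5 b6 b7 L d1 d2 ρ
      d3 d4
    refine ⟨S, T, hS, hT, le_trans ?_ hST⟩
    apply mul_le_mul_of_nonneg_right
    · exact mul_le_mul_of_nonneg_right hc₂c d3.le
    · exact pow_nonneg (mul_nonneg (d2 _).le (d2 _).le) _) k hkn Gn g H hg0 hH hHr hganti hm1 hHd
    Ln hLna hLn0
  -- final step
  have hfin : ∀ i, 1 ≤ i → i < k → c₂ ^ i * (∏ c ∈ Finset.Ico 1 i,
        (Ln (c - 1) * Ln c) ^ ((g c).natDegree - (g (c + 1)).natDegree)) *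
        (Ln (i - 1) * Ln (k - 1)) ^ (g i).natDegree ≤ R := by
    intro i hi hik
    have hρ : 0 < c₂ ^ (i - 1) * ∏ c ∈ Finset.Ico 1 i,
        (Ln (c - 1) * Ln c) ^ ((g c).natDegree - (g (c + 1)).natDegree) := by
      apply mul_pos (pow_pos hc₂0 _)
      apply Finset.prod_pos
      intro c _
      exact pow_pos (mul_pos (hLn0 _) (hLn0 _)) _
    have hdd : n - (g i).natDegree + (g i).natDegree = n := by
      have := hmle i hi; omega
    obtain ⟨S, T, hS, hT, hST⟩ := hstep (n - (g i).natDegree) (g i).natDegree i k hdd.le hi hik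
      (by omega) (g i) (H i) Gn (hg0 i hi) rfl (hHd i hi hik.le)
      (by intro a ha; rw [hdd]; exact hGnd a ha) (hH i hi) (hHr i hi)
      (by
        intro ζ
        obtain ⟨a, ha, h⟩ := hHr k (by omega) ζ
        refine ⟨a, ha, ?_⟩
        rw [hH k (by omega) a ha, map_mul]
        apply mul_ne_zero _ h
        obtain ⟨c, hc⟩ := natDegree_eq_zero.mp hmk
        rw [← hc, aeval_C]
        intro h0
        have h1 : (c : ℂ) = 0 := by simpa using h0
        have h2 : c = 0 := by exact_mod_cast h1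
        exact hg0 k (by omega) (by rw [← hc, h2, C_0])) Ln hLna hLn0 _ hρ (hch i hi hik.le)
    rw [hdd] at hST
    have hsum : ∀ S : ℕ → ℂ, ∑ a ∈ Finset.range k, C (S a) * (Gn a).map (Int.castRingHom ℂ) =
        reflect n (taylor (t : ℂ) (∑ a : Fin k, C (S a) * (G a).map (Int.castRingHom ℂ))) := by
      intro S
      rw [← sum_TT n k t (fun a => S a) G, ← Fin.sum_univ_eq_sum_range
        (fun a : ℕ => C (S a) * (Gn a).map (Int.castRingHom ℂ)) k]
      apply Finset.sum_congr rfl
      intro a _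
      rw [hGna a a.2]
    have hnd : ∀ S : ℕ → ℂ, (∑ a : Fin k, C (S a) * (G a).map (Int.castRingHom ℂ)).natDegree ≤ n := by
      intro S
      apply natDegree_sum_le_of_forall_le
      intro a _
      exact (natDegree_C_mul_le _ _).trans ((natDegree_map_le).trans (hGdeg a))
    rw [hsum S, hsum T, h4 n t _ _ (hnd S) (hnd T)] at hST
    have hRR := hR (fun a => S a) (fun a => T a) (fun a => by rw [← hLnL a]; exact hS a a.2)
      (fun a => by rw [← hLnL a]; exact hT a a.2)
    refine le_trans ?_ (hST.trans hRR)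
    have e : c₂ ^ i = c₂ * c₂ ^ (i - 1) := by
      rw [← pow_succ']; congr 1; omega
    rw [e, mul_assoc c₂]
    apply mul_le_mul_of_nonneg_right
    · exact mul_le_mul_of_nonneg_right hc₂c hρ.le
    · exact pow_nonneg (mul_nonneg (hLn0 _).le (hLn0 _).le) _
  have hR0 : 0 < R := by
    refine lt_of_lt_of_le ?_ (hfin 1 le_rfl (by omega))
    apply mul_pos
    · apply mul_pos (pow_pos hc₂0 _)
      apply Finset.prod_pos
      intro c _
      exact pow_pos (mul_pos (hLn0 _) (hLn0 _)) _
    · exact pow_pos (mul_pos (hLn0 _) (hLn0 _)) _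
  have hlc : 0 ≤ -Real.log c₂ := by
    have := Real.log_nonpos hc₂0.le hc₂1
    linarith
  have hLP := h3 n k hk2 hkn (fun c => (g c).natDegree) (fun a => Real.log (Ln a))
    (Real.log R + n * (-Real.log c₂)) hm1 hmk hmc (fun a => Real.log_nonneg (hLn1 a))
    (fun a b hab => Real.log_le_log (hLn0 b) (hLna a b hab))
    (by
      intro i hi hik
      have h5 := Real.log_le_log (by
        apply mul_pos
        · apply mul_pos (pow_pos hc₂0 _)
          apply Finset.prod_pos
          intro c _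
          exact pow_pos (mul_pos (hLn0 _) (hLn0 _)) _
        · exact pow_pos (mul_pos (hLn0 _) (hLn0 _)) _) (hfin i hi hik)
      have hprod : (∏ c ∈ Finset.Ico 1 i,
        (Ln (c - 1) * Ln c) ^ ((g c).natDegree - (g (c + 1)).natDegree)) ≠ 0 := by
        apply Finset.prod_ne_zero_iff.mpr
        intro c _
        exact (pow_pos (mul_pos (hLn0 _) (hLn0 _)) _).ne'
      rw [Real.log_mul (mul_ne_zero (pow_pos hc₂0 _).ne' hprod)
        (pow_pos (mul_pos (hLn0 _) (hLn0 _)) _).ne', Real.log_mul (pow_pos hc₂0 _).ne' hprod,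
        Real.log_pow, Real.log_pow, Real.log_mul (hLn0 _).ne' (hLn0 _).ne', Real.log_prod] at h5
      · have h6 : ∑ c ∈ Finset.Ico 1 i, Real.log ((Ln (c - 1) * Ln c) ^ ((g c).natDegree -
            (g (c + 1)).natDegree)) = ∑ c ∈ Finset.Ico 1 i, (((g c).natDegree : ℝ) -
            (g (c + 1)).natDegree) * (Real.log (Ln (c - 1)) + Real.log (Ln c)) := by
          apply Finset.sum_congr rfl
          intro c hc
          have hc1 := (Finset.mem_Ico.mp hc).1
          rw [Real.log_pow, Real.log_mul (hLn0 _).ne' (hLn0 _).ne', Nat.cast_sub]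
          exact natDegree_le_of_dvd (hganti c (c + 1) hc1 (by omega)) (hg0 c hc1)
        rw [h6] at h5
        have h7 : (i : ℝ) * (-Real.log c₂) ≤ n * (-Real.log c₂) := by
          apply mul_le_mul_of_nonneg_right _ hlc
          have : i ≤ n := by omega
          exact_mod_cast this
        linarith
      · intro c _
        exact (pow_pos (mul_pos (hLn0 _) (hLn0 _)) _).ne')
  have hsumlog : ∑ a ∈ Finset.range k, Real.log (Ln a) = Real.log (∏ a, L a) := by
    rw [Real.log_prod (fun a _ => (lt_of_lt_of_le one_pos (hL1 a)).ne'),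
      ← Fin.sum_univ_eq_sum_range (fun a : ℕ => Real.log (Ln a)) k]
    apply Finset.sum_congr rfl
    intro a _
    rw [hLnL]
  rw [hsumlog] at hLP
  have hprodL : 0 < ∏ a, L a := Finset.prod_pos (fun a _ => lt_of_lt_of_le one_pos (hL1 a))
  rw [Real.rpow_def_of_pos hprodL, Real.rpow_def_of_pos hR0, ← Real.exp_add]
  apply Real.exp_le_exp.mpr
  linarith

end Pool.Agent.Helper86.HR
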