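import Mathlib

open Polynomial

namespace Pool.Agent.Helper86.HR

/-- reversal inside both blocks of columns -/
def blockRev (n : ℕ) : Equiv.Perm (Fin (n + n)) where
  toFun j := Fin.addCases (fun a => Fin.castAdd n (Fin.rev a)) (fun a => Fin.natAdd n (Fin.rev a)) j
  invFun j := Fin.addCases (fun a => Fin.castAdd n (Fin.rev a)) (fun a => Fin.natAdd n (Fin.rev a)) j
  left_inv j := by
    induction j using Fin.addCases <;>
      simp only [Fin.addCases_left, Fin.addCases_right, Fin.rev_rev]
  right_inv j := by
    induction j using Fin.addCases <;>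
      simp only [Fin.addCases_left, Fin.addCases_right, Fin.rev_rev]

theorem sylvester_reflect (n : ℕ) (P Q : ℂ[X]) :
    sylvester (reflect n P) (reflect n Q) n n =
      (sylvester P Q n n).submatrix (Fin.revPerm : Equiv.Perm (Fin (n + n))) (blockRev n) := by
  ext i j
  induction j using Fin.addCases with
  | left j =>
    simp only [sylvester, Set.mem_Icc, Matrix.of_apply, Fin.addCases_left, Matrix.submatrix_apply,
      blockRev, Equiv.coe_fn_mk, Fin.revPerm_apply, Fin.val_rev]
    have hi := i.2
    have hj := j.2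
    by_cases h : (j : ℕ) ≤ i ∧ (i : ℕ) ≤ j + n
    · rw [if_pos h, if_pos (by omega), coeff_reflect, revAt_le (by omega)]
      congr 1
      omega
    · rw [if_neg h, if_neg (by omega)]
  | right j =>
    simp only [sylvester, Set.mem_Icc, Matrix.of_apply, Fin.addCases_right, Matrix.submatrix_apply,
      blockRev, Equiv.coe_fn_mk, Fin.revPerm_apply, Fin.val_rev]
    have hi := i.2
    have hj := j.2
    by_cases h : (j : ℕ) ≤ i ∧ (i : ℕ) ≤ j + n
    · rw [if_pos h, if_pos (by omega), coeff_reflect, revAt_le (by omega)]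
      congr 1
      omega
    · rw [if_neg h, if_neg (by omega)]

theorem norm_sign (k : ℕ) (e : Equiv.Perm (Fin k)) : ‖((Equiv.Perm.sign e : ℤ) : ℂ)‖ = 1 := by
  rcases Int.units_eq_one_or (Equiv.Perm.sign e) with h | h <;> simp [h]

theorem norm_resultant_reflect (n : ℕ) (P Q : ℂ[X]) :
    ‖resultant (reflect n P) (reflect n Q) n n‖ = ‖resultant P Q n n‖ := by
  rw [resultant, resultant, sylvester_reflect]
  have h1 : (sylvester P Q n n).submatrix (Fin.revPerm : Equiv.Perm (Fin (n + n))) (blockRev n) =
      ((sylvester P Q n n).submatrix (Fin.revPerm : Equiv.Perm (Fin (n + n))) id).submatrix id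
        (blockRev n) := by
    ext i j; simp
  rw [h1, Matrix.det_permute', Matrix.det_permute]
  rw [norm_mul, norm_mul, norm_sign, norm_sign, one_mul, one_mul]

theorem resultant_taylor_deg (n : ℕ) (t : ℂ) (A B : ℂ[X]) (hA : A.natDegree ≤ n)
    (hB : B.natDegree ≤ n) :
    resultant (taylor t A) (taylor t B) n n = resultant A B n n := by
  obtain ⟨k, hk⟩ : ∃ k, n = A.natDegree + k := ⟨n - A.natDegree, by omega⟩
  obtain ⟨l, hl⟩ : ∃ l, n = B.natDegree + l := ⟨n - B.natDegree, by omega⟩
  have e1 : ∀ A' B' : ℂ[X], A'.natDegree = A.natDegree → B'.natDegree = B.natDegree →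
      resultant A' B' n n = (-1) ^ (n * k) * B'.coeff n ^ k * (A'.coeff A.natDegree ^ l *
        resultant A' B') := by
    intro A' B' hA' hB'
    have h2 := resultant_add_right_deg A' B' A.natDegree B.natDegree l (by omega)
    rw [← hl] at h2
    have h3 := resultant_add_left_deg A' B' A.natDegree n k (by omega)
    rw [← hk] at h3
    rw [h3, h2, hA', hB']
  have hc : (taylor t B).coeff n = B.coeff n := by
    rcases Nat.eq_zero_or_pos l with h0 | h0
    · subst h0
      rw [hl, add_zero, coeff_taylor_natDegree]; rfl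
    · rw [coeff_eq_zero_of_natDegree_lt (p := B) (by omega), coeff_eq_zero_of_natDegree_lt]
      rw [natDegree_taylor]; omega
  rw [e1 A B rfl rfl, e1 (taylor t A) (taylor t B) (natDegree_taylor _ _) (natDegree_taylor _ _),
    resultant_taylor, coeff_taylor_natDegree, hc]
  rfl

theorem st_INV_aux (n : ℕ) (t : ℂ) (A B : ℂ[X]) (hA : A.natDegree ≤ n) (hB : B.natDegree ≤ n) :
    ‖resultant (reflect n (taylor t A)) (reflect n (taylor t B)) n n‖ = ‖resultant A B n n‖ := by
  rw [norm_resultant_reflect, resultant_taylor_deg n t A B hA hB]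

end Pool.Agent.Helper86.HR
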